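import Pool.Agent.H98.ABCR.All2

set_option autoImplicit false

namespace Pool.H10Kept.AbcRadicalCount

open Pool.Agent.H98.ABCR

/-- The number of abc triples `a + b = c` (of any height) with radical at most `X` is
`O (X ^ (24 / 25))`. -/
theorem result : ∃ C : ℝ, ∀ X : ℝ, 1 ≤ X →
    {t : ℕ × ℕ | 0 < t.1 ∧ 0 < t.2 ∧ Nat.Coprime t.1 t.2 ∧
      ((∏ p ∈ (t.1 * t.2 * (t.1 + t.2)).primeFactors, p : ℕ) : ℝ) ≤ X}.Finite ∧
    (({t : ℕ × ℕ | 0 < t.1 ∧ 0 < t.2 ∧ Nat.Coprime t.1 t.2 ∧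
      ((∏ p ∈ (t.1 * t.2 * (t.1 + t.2)).primeFactors, p : ℕ) : ℝ) ≤ X}.ncard : ℕ) : ℝ) ≤
      C * X ^ (24 / 25 : ℝ) := by
  classical
  obtain ⟨C, hC, h⟩ := all_MAIN2
  refine ⟨C, fun X hX => ?_⟩
  set T : Set (ℕ × ℕ) := {t : ℕ × ℕ | 0 < t.1 ∧ 0 < t.2 ∧ Nat.Coprime t.1 t.2 ∧
      ((∏ p ∈ (t.1 * t.2 * (t.1 + t.2)).primeFactors, p : ℕ) : ℝ) ≤ X} with hT
  have key : ∀ F : Finset (ℕ × ℕ), (F : Set (ℕ × ℕ)) ⊆ T → (F.card : ℝ) ≤ C * X ^ (24 / 25 : ℝ) := by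
    intro F hF
    refine h X F hX (fun v hv => ?_)
    have := hF (Finset.mem_coe.mpr hv)
    rw [hT, Set.mem_setOf_eq] at this
    obtain ⟨h1, h2, h3, h4⟩ := this
    exact ⟨⟨h1, h2, h3⟩, h4⟩
  have hfin : T.Finite := by
    by_contra hinf
    obtain ⟨F, hF, hFc⟩ := Set.Infinite.exists_subset_card_eq hinf (⌊C * X ^ (24 / 25 : ℝ)⌋₊ + 1)
    have h1 := key F hF
    rw [hFc] at h1
    have h2 := Nat.lt_floor_add_one (C * X ^ (24 / 25 : ℝ))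
    push_cast at h1
    linarith
  refine ⟨hfin, ?_⟩
  have h1 := key hfin.toFinset (by rw [Set.Finite.coe_toFinset])
  rwa [← Set.ncard_eq_toFinset_card T hfin] at h1

end Pool.H10Kept.AbcRadicalCount
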