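import Pool.Agent.H10.FEX.All

set_option autoImplicit false

namespace Pool.H10Kept.FewExponentsCount

/-- `Tri X H D m k`: the abc triples `(a, b, a + b)` with radical at most `X` and logarithmic
height at most `H` such that for some set `E` of at most `m` exponents at most `k` primes `p ≤ D`
divide `a b (a + b)` with an exponent outside `E`. -/
def Tri (X H D : ℝ) (m k : ℕ) : Set (ℕ × ℕ) :=
  {t | 0 < t.1 ∧ 0 < t.2 ∧ Nat.Coprime t.1 t.2 ∧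
    ((∏ p ∈ (t.1 * t.2 * (t.1 + t.2)).primeFactors, p : ℕ) : ℝ) ≤ X ∧
    (∃ E : Finset ℕ, E.card ≤ m ∧ ((t.1 * t.2 * (t.1 + t.2)).primeFactors.filter
      (fun p : ℕ => (p : ℝ) ≤ D ∧ (t.1 * t.2 * (t.1 + t.2)).factorization p ∉ E)).card ≤ k) ∧
    Real.log ((t.1 + t.2 : ℕ) : ℝ) ≤ H}

/-- `TriY X Y H D m k`: those for which one of the radicals of `a`, `b`, `a + b` is at most `Y`. -/
def TriY (X Y H D : ℝ) (m k : ℕ) : Set (ℕ × ℕ) :=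
  {t | t ∈ Tri X H D m k ∧ (((∏ p ∈ t.1.primeFactors, p : ℕ) : ℝ) ≤ Y ∨
    ((∏ p ∈ t.2.primeFactors, p : ℕ) : ℝ) ≤ Y ∨ ((∏ p ∈ (t.1 + t.2).primeFactors, p : ℕ) : ℝ) ≤ Y)}

/-- The number of abc triples whose small primes have few exponents, for all heights: the sharp
exponent `2 / 3` and its sharp two-parameter refinement. -/
theorem result :
    (∀ ε : ℝ, 0 < ε → ∃ A C c : ℝ, 0 < c ∧ ∀ (X H : ℝ) (m k : ℕ), 3 ≤ X → 1 ≤ H → 1 ≤ m →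
      (m : ℝ) ≤ Real.log X ^ c → (Tri X H (Real.log (X * H) ^ A) m k).Finite ∧
      ((Tri X H (Real.log (X * H) ^ A) m k).ncard : ℝ) ≤
        C * X ^ (2 / 3 + ε) * Real.log (X * H) ^ (A * (m + k)) ∧
      ∀ Y : ℝ, 1 ≤ Y → ((TriY X Y H (Real.log (X * H) ^ A) m k).ncard : ℝ) ≤
        C * X ^ (1 / 2 + ε) * Y ^ (1 / 2 : ℝ) * Real.log (X * H) ^ (A * (m + k))) ∧
    ∃ c X₀ : ℝ, 0 < c ∧ ∀ (X Y H D : ℝ) (m k : ℕ), X₀ ≤ X → 1 ≤ Y → Y ≤ X ^ (1 / 3 : ℝ) →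
      Real.log X ≤ H → 1 ≤ m → c * (X * Y) ^ (1 / 2 : ℝ) ≤ ((TriY X Y H D m k).ncard : ℝ) :=
  ⟨(Pool.FEX.final3 Pool.FEX.all_MA2 Pool.FEX.lo2_thm Pool.FEX.all_GFE).1,
    (Pool.FEX.final3 Pool.FEX.all_MA2 Pool.FEX.lo2_thm Pool.FEX.all_GFE).2.1⟩

end Pool.H10Kept.FewExponentsCount
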