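import Pool.Agent.H10.FEW.All

set_option autoImplicit false

namespace Pool.H10Kept.FewPrimes05f553

/-- `Tri X H k`: the abc triples `(a, b, a + b)` with radical at most `X`, at most `k` prime factors
and logarithmic height at most `H`. -/
def Tri (X H : ℝ) (k : ℕ) : Set (ℕ × ℕ) :=
  {t | 0 < t.1 ∧ 0 < t.2 ∧ Nat.Coprime t.1 t.2 ∧
    ((∏ p ∈ (t.1 * t.2 * (t.1 + t.2)).primeFactors, p : ℕ) : ℝ) ≤ X ∧
    (t.1 * t.2 * (t.1 + t.2)).primeFactors.card ≤ k ∧ Real.log ((t.1 + t.2 : ℕ) : ℝ) ≤ H}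

/-- `TriY X Y H k`: those for which one of the radicals of `a`, `b`, `a + b` is at most `Y`. -/
def TriY (X Y H : ℝ) (k : ℕ) : Set (ℕ × ℕ) :=
  {t | t ∈ Tri X H k ∧ (((∏ p ∈ t.1.primeFactors, p : ℕ) : ℝ) ≤ Y ∨
    ((∏ p ∈ t.2.primeFactors, p : ℕ) : ℝ) ≤ Y ∨ ((∏ p ∈ (t.1 + t.2).primeFactors, p : ℕ) : ℝ) ≤ Y)}

/-- The number of abc triples with few prime factors, for all heights: the sharp exponent `2 / 3`
and its sharp two-parameter refinement. -/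
theorem result :
    (∀ ε : ℝ, 0 < ε → ∃ A C : ℝ, ∀ (X H : ℝ) (k : ℕ), 3 ≤ X → 1 ≤ H → (Tri X H k).Finite ∧
      ((Tri X H k).ncard : ℝ) ≤ C * X ^ (2 / 3 + ε) * Real.log (X * H) ^ (A * k) ∧
      ∀ Y : ℝ, 1 ≤ Y →
        ((TriY X Y H k).ncard : ℝ) ≤
          C * X ^ (1 / 2 + ε) * Y ^ (1 / 2 : ℝ) * Real.log (X * H) ^ (A * k)) ∧
    ∃ c C X₀ : ℝ, 0 < c ∧ ∀ (X Y H : ℝ) (k : ℕ), X₀ ≤ X → 1 ≤ Y → Y ≤ X ^ (1 / 3 : ℝ) →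
      Real.log X ≤ H → C * Real.log (Real.log X) ≤ k →
      c * (X * Y) ^ (1 / 2 : ℝ) ≤ ((TriY X Y H k).ncard : ℝ) :=
  Pool.FEW.final Pool.FEW.all_MAIN Pool.FEW.all_LOW

end Pool.H10Kept.FewPrimes05f553
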