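import Pool.Agent.H45.SHA.All

set_option autoImplicit false

namespace Pool.H10Kept.SharpCount

/-- For every `ε > 0`, the number of abc triples of radical at most `X` and of logarithmic height at
most `H` is `O (X ^ (2 / 3 + ε) H ^ O(1))`; and it is at least `X ^ (2 / 3) / 32` as soon as
`H ≥ log X`. -/
theorem result :
    (∀ ε : ℝ, 0 < ε → ∃ A C : ℝ, ∀ X H : ℝ, 1 ≤ X → 1 ≤ H →
      {t : ℕ × ℕ | 0 < t.1 ∧ 0 < t.2 ∧ Nat.Coprime t.1 t.2 ∧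
        ((∏ p ∈ (t.1 * t.2 * (t.1 + t.2)).primeFactors, p : ℕ) : ℝ) ≤ X ∧
        Real.log ((t.1 + t.2 : ℕ) : ℝ) ≤ H}.Finite ∧
      (({t : ℕ × ℕ | 0 < t.1 ∧ 0 < t.2 ∧ Nat.Coprime t.1 t.2 ∧
        ((∏ p ∈ (t.1 * t.2 * (t.1 + t.2)).primeFactors, p : ℕ) : ℝ) ≤ X ∧
        Real.log ((t.1 + t.2 : ℕ) : ℝ) ≤ H}.ncard : ℕ) : ℝ) ≤
        C * X ^ (2 / 3 + ε) * H ^ A) ∧
    ∀ X H : ℝ, 2 ≤ X → Real.log X ≤ H →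
      X ^ (2 / 3 : ℝ) / 32 ≤ (({t : ℕ × ℕ | 0 < t.1 ∧ 0 < t.2 ∧ Nat.Coprime t.1 t.2 ∧
        ((∏ p ∈ (t.1 * t.2 * (t.1 + t.2)).primeFactors, p : ℕ) : ℝ) ≤ X ∧
        Real.log ((t.1 + t.2 : ℕ) : ℝ) ≤ H}.ncard : ℕ) : ℝ) :=
  Pool.SHA.final Pool.SHA.all_MAIN

end Pool.H10Kept.SharpCount
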