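import Mathlib

/-!
Necessary conditions on the parameters in Philippon's inequality.  Any witness has B at least 4,
or B = 3 together with alpha + eps > 4/3.

B = 1: x = 1, y = 2^n - 1.  B = 2: x = -1, y = (2^n+1)/(2^n-1).
B = 3: the identity (s-t)^3 (s+3t) - (s+t)^3 (s-3t) = 16 s t^3 with s = 2^a, t = 3^b of comparable
size, chosen (by congruences modulo powers of 5 and 7 and density of the group generated by two
incommensurable reals) such that 5^(3j) divides s+3t and 7^(3j) divides s-3t.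
-/

set_option autoImplicit false

namespace Pool.Agent.H10.Kept.SharpParams

/-- The left-hand side sum is the logarithm of the numerator. -/
lemma lhs_eq (r : ℚ) (hr : r ≠ 0) :
    -(∑ p ∈ r.num.natAbs.primeFactors, Real.log ((padicNorm p r : ℚ) : ℝ))
      = Real.log (r.num.natAbs : ℝ) := by
  have hn : r.num ≠ 0 := Rat.num_ne_zero.mpr hr
  have hn' : r.num.natAbs ≠ 0 := Int.natAbs_ne_zero.mpr hn
  rw [Real.log_nat_eq_sum_factorization, Finsupp.sum, Nat.support_factorization,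
    ← Finset.sum_neg_distrib]
  refine Finset.sum_congr rfl ?_
  intro p hp
  have hpp : p.Prime := Nat.prime_of_mem_primeFactors hp
  have hpd : p ∣ r.num.natAbs := Nat.dvd_of_mem_primeFactors hp
  have : Fact p.Prime := ⟨hpp⟩
  have hpden : ¬ p ∣ r.den := by
    intro hd
    have h1 := r.reduced
    exact Nat.not_coprime_of_dvd_of_dvd hpp.one_lt hpd hd h1
  have hval : padicValRat p r = (r.num.natAbs.factorization p : ℤ) := by
    rw [padicValRat_def, padicValNat.eq_zero_of_not_dvd hpden, padicValInt,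
      Nat.factorization_def _ hpp]
    simp
  rw [padicNorm.eq_zpow_of_nonzero hr, hval]
  push_cast
  rw [Real.log_zpow]
  push_cast
  ring

/-- A bound for the height of a quotient of integers. -/
lemma ht_le (r : ℚ) (P Q : ℤ) (hP : P ≠ 0) (hQ : Q ≠ 0) (hr : r = (P : ℚ) / (Q : ℚ)) (M : ℝ)
    (h1 : |(P : ℝ)| ≤ M) (h2 : |(Q : ℝ)| ≤ M) :
    Real.log (max |((r.num : ℤ) : ℝ)| ((r.den : ℕ) : ℝ)) ≤ Real.log M := by
  have hr' : r = Rat.divInt P Q := by rw [hr, Rat.divInt_eq_div]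
  have hn : r.num ∣ P := by rw [hr']; exact Rat.num_dvd P hQ
  have hd : (r.den : ℤ) ∣ Q := by rw [hr']; exact Rat.den_dvd P Q
  have hn1 : |((r.num : ℤ) : ℝ)| ≤ |(P : ℝ)| := by
    have := Int.natAbs_le_of_dvd_ne_zero hn hP
    rw [← Int.cast_abs, ← Int.cast_abs]
    have h3 : |r.num| ≤ |P| := by
      rw [Int.abs_eq_natAbs, Int.abs_eq_natAbs]; exact_mod_cast this
    exact_mod_cast h3
  have hd1 : ((r.den : ℕ) : ℝ) ≤ |(Q : ℝ)| := by
    have := Int.natAbs_le_of_dvd_ne_zero hd hQ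
    rw [← Int.cast_abs]
    have h3 : (r.den : ℤ) ≤ |Q| := by
      rw [Int.abs_eq_natAbs]; exact_mod_cast this
    exact_mod_cast h3
  apply Real.log_le_log
  · have : (0 : ℝ) < (r.den : ℝ) := by exact_mod_cast r.pos
    exact lt_of_lt_of_le this (le_max_right _ _)
  · exact max_le (hn1.trans h1) (hd1.trans h2)

/-- numerator of a reduced fraction, up to sign. -/
lemma num_natAbs_of_coprime (r : ℚ) (P Q : ℤ) (hQ : Q ≠ 0) (hc : IsCoprime P Q)
    (hr : r = (P : ℚ) / (Q : ℚ)) : r.num.natAbs = P.natAbs := by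
  have hcop : Nat.Coprime P.natAbs Q.natAbs := Int.isCoprime_iff_nat_coprime.mp hc
  rcases lt_or_gt_of_ne hQ with hneg | hpos
  · have h1 : r = ((-P : ℤ) : ℚ) / ((-Q : ℤ) : ℚ) := by
      rw [hr]; push_cast; rw [neg_div_neg_eq]
    have h2 := Rat.num_div_eq_of_coprime (a := -P) (b := -Q) (by omega)
      (by simpa using hcop)
    rw [h1, h2, Int.natAbs_neg]
  · have h2 := Rat.num_div_eq_of_coprime (a := P) (b := Q) hpos hcop
    rw [hr, h2]

lemma irr : Irrational (Real.log 2 / Real.log 3) := by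
  rintro ⟨q, hq⟩
  have h3 : 0 < Real.log 3 := Real.log_pos (by norm_num)
  have h2 : 0 < Real.log 2 := Real.log_pos (by norm_num)
  have hqpos : 0 < q := by
    have : (0 : ℝ) < (q : ℝ) := by rw [hq]; positivity
    exact_mod_cast this
  have h4 : (q : ℝ) * Real.log 3 = Real.log 2 := by
    rw [hq]; field_simp
  have h5 : (q.num : ℝ) * Real.log 3 = (q.den : ℝ) * Real.log 2 := by
    rw [← h4]
    have hqd : (q : ℝ) = (q.num : ℝ) / (q.den : ℝ) := by exact_mod_cast (Rat.num_div_den q).symm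
    have hd0 : (q.den : ℝ) ≠ 0 := by exact_mod_cast q.den_nz
    rw [hqd]; field_simp
  obtain ⟨n, hn⟩ : ∃ n : ℕ, q.num = n := ⟨q.num.toNat, by
    rw [Int.toNat_of_nonneg (Rat.num_nonneg.mpr hqpos.le)]⟩
  have hnpos : 0 < n := by
    have : 0 < q.num := Rat.num_pos.mpr hqpos
    omega
  have h6 : Real.log ((3 : ℝ) ^ n) = Real.log ((2 : ℝ) ^ q.den) := by
    rw [Real.log_pow, Real.log_pow, ← h5, hn]; simp
  have h7 : (3 : ℝ) ^ n = (2 : ℝ) ^ q.den :=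
    Real.log_injOn_pos (Set.mem_Ioi.mpr (by positivity)) (Set.mem_Ioi.mpr (by positivity)) h6
  have h8 : (3 : ℕ) ^ n = 2 ^ q.den := by exact_mod_cast h7
  have h9 : 2 ∣ 3 ^ n := by rw [h8]; exact dvd_pow_self 2 q.den_nz
  have h10 := Nat.prime_two.dvd_of_dvd_pow h9
  omega

lemma five_dvd (k u w : ℕ) (hu : Odd u) :
    (5 ^ (k + 1) : ℤ) ∣ 2 ^ (6 * 35 ^ k * u) + 3 ^ (12 * 35 ^ k * w) := by
  have h1 : ((5 : ℕ) : ℤ) ∣ 4 - (-1) := by norm_num
  have h2 := dvd_sub_pow_of_dvd_sub h1 k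
  have h3 : ((5 : ℕ) : ℤ) ∣ 81 - 1 := by norm_num
  have h4 := dvd_sub_pow_of_dvd_sub h3 k
  have hodd5 : Odd (5 ^ k) := Odd.pow (by decide)
  have hodd7 : Odd (7 ^ k) := Odd.pow (by decide)
  have h5 : (5 ^ (k + 1) : ℤ) ∣ 4 ^ 5 ^ k + 1 := by
    have : (4 : ℤ) ^ 5 ^ k - (-1) ^ 5 ^ k = 4 ^ 5 ^ k + 1 := by
      rw [hodd5.neg_one_pow]; ring
    rw [this] at h2; exact_mod_cast h2
  have hodd : Odd (3 * 7 ^ k * u) := (Odd.mul (Odd.mul (by decide) hodd7) hu)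
  have h6 : (5 ^ (k + 1) : ℤ) ∣ (4 ^ 5 ^ k) ^ (3 * 7 ^ k * u) + 1 := by
    refine h5.trans ?_
    have := Odd.add_dvd_pow_add_pow (4 ^ 5 ^ k : ℤ) 1 hodd
    simpa using this
  have h7 : (5 ^ (k + 1) : ℤ) ∣ (81 ^ 5 ^ k) ^ (3 * 7 ^ k * w) - 1 := by
    have h8 : (5 ^ (k + 1) : ℤ) ∣ 81 ^ 5 ^ k - 1 := by
      have : (81 : ℤ) ^ 5 ^ k - (1) ^ 5 ^ k = 81 ^ 5 ^ k - 1 := by simp
      rw [this] at h4; exact_mod_cast h4
    refine h8.trans ?_
    have := sub_dvd_pow_sub_pow (81 ^ 5 ^ k : ℤ) 1 (3 * 7 ^ k * w)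
    simpa using this
  have e1 : (2 : ℤ) ^ (6 * 35 ^ k * u) = (4 ^ 5 ^ k) ^ (3 * 7 ^ k * u) := by
    rw [show (4 : ℤ) = 2 ^ 2 by norm_num, ← pow_mul, ← pow_mul]
    congr 1
    rw [show (35 : ℕ) = 5 * 7 by norm_num, mul_pow]; ring
  have e2 : (3 : ℤ) ^ (12 * 35 ^ k * w) = (81 ^ 5 ^ k) ^ (3 * 7 ^ k * w) := by
    rw [show (81 : ℤ) = 3 ^ 4 by norm_num, ← pow_mul, ← pow_mul]
    congr 1
    rw [show (35 : ℕ) = 5 * 7 by norm_num, mul_pow]; ring
  rw [e1, e2]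
  obtain ⟨c, hc⟩ := h6
  obtain ⟨d, hd⟩ := h7
  exact ⟨c + d, by rw [mul_add, ← hc, ← hd]; ring⟩

lemma seven_dvd (k u w : ℕ) :
    (7 ^ (k + 1) : ℤ) ∣ 2 ^ (6 * 35 ^ k * u) - 3 ^ (12 * 35 ^ k * w) := by
  have h1 : ((7 : ℕ) : ℤ) ∣ 8 - 1 := by norm_num
  have h2 := dvd_sub_pow_of_dvd_sub h1 k
  have h3 : ((7 : ℕ) : ℤ) ∣ 729 - 1 := by norm_num
  have h4 := dvd_sub_pow_of_dvd_sub h3 k
  have h6 : (7 ^ (k + 1) : ℤ) ∣ (8 ^ 7 ^ k) ^ (2 * 5 ^ k * u) - 1 := by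
    have h8 : (7 ^ (k + 1) : ℤ) ∣ 8 ^ 7 ^ k - 1 := by
      have : (8 : ℤ) ^ 7 ^ k - (1) ^ 7 ^ k = 8 ^ 7 ^ k - 1 := by simp
      rw [this] at h2; exact_mod_cast h2
    refine h8.trans ?_
    have := sub_dvd_pow_sub_pow (8 ^ 7 ^ k : ℤ) 1 (2 * 5 ^ k * u)
    simpa using this
  have h7 : (7 ^ (k + 1) : ℤ) ∣ (729 ^ 7 ^ k) ^ (2 * 5 ^ k * w) - 1 := by
    have h8 : (7 ^ (k + 1) : ℤ) ∣ 729 ^ 7 ^ k - 1 := by
      have : (729 : ℤ) ^ 7 ^ k - (1) ^ 7 ^ k = 729 ^ 7 ^ k - 1 := by simp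
      rw [this] at h4; exact_mod_cast h4
    refine h8.trans ?_
    have := sub_dvd_pow_sub_pow (729 ^ 7 ^ k : ℤ) 1 (2 * 5 ^ k * w)
    simpa using this
  have e1 : (2 : ℤ) ^ (6 * 35 ^ k * u) = (8 ^ 7 ^ k) ^ (2 * 5 ^ k * u) := by
    rw [show (8 : ℤ) = 2 ^ 3 by norm_num, ← pow_mul, ← pow_mul]
    congr 1
    rw [show (35 : ℕ) = 5 * 7 by norm_num, mul_pow]; ring
  have e2 : (3 : ℤ) ^ (12 * 35 ^ k * w) = (729 ^ 7 ^ k) ^ (2 * 5 ^ k * w) := by
    rw [show (729 : ℤ) = 3 ^ 6 by norm_num, ← pow_mul, ← pow_mul]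
    congr 1
    rw [show (35 : ℕ) = 5 * 7 by norm_num, mul_pow]; ring
  rw [e1, e2]
  obtain ⟨c, hc⟩ := h6
  obtain ⟨d, hd⟩ := h7
  exact ⟨c - d, by rw [mul_sub, ← hc, ← hd]; ring⟩

/-- Integers `m n` with `(2m+1)P log 2` within `log 2` of `2Pn log 3`. -/
lemma approx (P : ℕ) (hP : 0 < P) :
    ∃ m n : ℤ, |(P : ℝ) * (2 * m + 1) * Real.log 2 - 2 * P * n * Real.log 3| < Real.log 2 := by
  have h3 : 0 < Real.log 3 := Real.log_pos (by norm_num)
  have h2 : 0 < Real.log 2 := Real.log_pos (by norm_num)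
  have hPr : (0 : ℝ) < P := by exact_mod_cast hP
  have hirr : Irrational ((2 * P * Real.log 2) / (2 * P * Real.log 3)) := by
    rw [mul_div_mul_left _ _ (by positivity)]
    exact irr
  have hdense := dense_addSubgroupClosure_pair_iff.mpr hirr
  obtain ⟨g, hg1, hg2⟩ := hdense.exists_mem_open
    (isOpen_Ioo (a := -Real.log 2 - P * Real.log 2) (b := Real.log 2 - P * Real.log 2))
    ⟨-(P * Real.log 2), by constructor <;> linarith⟩
  rw [SetLike.mem_coe, AddSubgroup.mem_closure_pair] at hg1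
  obtain ⟨m, n, hmn⟩ := hg1
  refine ⟨m, -n, ?_⟩
  rw [zsmul_eq_mul, zsmul_eq_mul] at hmn
  rw [abs_lt]
  obtain ⟨hg3, hg4⟩ := hg2
  push_cast
  constructor <;> nlinarith

lemma exists_st (k : ℕ) : ∃ a b : ℕ, 1 ≤ a ∧ 1 ≤ b ∧
    (5 ^ (k + 1) : ℤ) ∣ 2 ^ a + 3 * 3 ^ b ∧ (7 ^ (k + 1) : ℤ) ∣ 2 ^ a - 3 * 3 ^ b ∧
    (3 : ℝ) ^ b ≤ 2 ^ a ∧ (2 : ℝ) ^ a ≤ 6 * 3 ^ b := by
  have h3 : 0 < Real.log 3 := Real.log_pos (by norm_num)
  have h2 : 0 < Real.log 2 := Real.log_pos (by norm_num)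
  have h23 : Real.log 2 < Real.log 3 := Real.log_lt_log (by norm_num) (by norm_num)
  have hPpos : 0 < 6 * 35 ^ k := by positivity
  -- positive exponents
  have key : ∃ m n : ℤ, 0 ≤ m ∧ 0 < n ∧
      |((6 * 35 ^ k : ℕ) : ℝ) * (2 * m + 1) * Real.log 2
        - 2 * ((6 * 35 ^ k : ℕ) : ℝ) * n * Real.log 3| < Real.log 2 := by
    obtain ⟨m, n, hmn⟩ := approx (6 * 35 ^ k) hPpos
    set P : ℝ := ((6 * 35 ^ k : ℕ) : ℝ) with hPdef
    have hP1 : (1 : ℝ) ≤ P := by rw [hPdef]; exact_mod_cast hPpos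
    rw [abs_lt] at hmn
    obtain ⟨h5, h6⟩ := hmn
    rcases le_or_gt 0 m with hm | hm
    · refine ⟨m, n, hm, ?_, by rw [abs_lt]; exact ⟨h5, h6⟩⟩
      by_contra hn
      push Not at hn
      have hn' : (n : ℝ) ≤ 0 := by exact_mod_cast hn
      have hm' : (0 : ℝ) ≤ m := by exact_mod_cast hm
      have : 2 * P * n * Real.log 3 ≤ 0 := by
        have : P * (n : ℝ) ≤ 0 := mul_nonpos_of_nonneg_of_nonpos (by linarith) hn'
        nlinarith
      have : Real.log 2 ≤ P * (2 * m + 1) * Real.log 2 := by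
        have : 1 ≤ P * (2 * (m : ℝ) + 1) := by nlinarith
        nlinarith
      linarith
    · refine ⟨-m - 1, -n, by omega, ?_, ?_⟩
      · by_contra hn
        push Not at hn
        have hn' : (0 : ℝ) ≤ n := by
          have : 0 ≤ n := by omega
          exact_mod_cast this
        have hm' : (m : ℝ) ≤ -1 := by
          have : m ≤ -1 := by omega
          exact_mod_cast this
        have : 0 ≤ 2 * P * n * Real.log 3 := by positivity
        have : P * (2 * m + 1) * Real.log 2 ≤ - Real.log 2 := by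
          have : P * (2 * (m : ℝ) + 1) ≤ -1 := by nlinarith
          nlinarith
        linarith
      · rw [abs_lt]
        push_cast
        constructor <;> nlinarith
  obtain ⟨m, n, hm, hn, hmn⟩ := key
  obtain ⟨u, hu⟩ : ∃ u : ℕ, m = u := ⟨m.toNat, by rw [Int.toNat_of_nonneg hm]⟩
  obtain ⟨w, hw⟩ : ∃ w : ℕ, n = w := ⟨n.toNat, by rw [Int.toNat_of_nonneg hn.le]⟩
  subst hu hw
  have hw0 : 0 < w := by exact_mod_cast hn
  have hbpos : 2 ≤ 12 * 35 ^ k * w := by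
    have : 1 ≤ 35 ^ k := Nat.one_le_pow _ _ (by norm_num)
    nlinarith
  have hb1 : 3 * 3 ^ (12 * 35 ^ k * w - 1) = (3 : ℤ) ^ (12 * 35 ^ k * w) := by
    rw [← pow_succ', Nat.sub_add_cancel (by omega)]
  have hb2 : 3 * 3 ^ (12 * 35 ^ k * w - 1) = (3 : ℝ) ^ (12 * 35 ^ k * w) := by
    rw [← pow_succ', Nat.sub_add_cancel (by omega)]
  refine ⟨6 * 35 ^ k * (2 * u + 1), 12 * 35 ^ k * w - 1, ?_, ?_, ?_, ?_, ?_, ?_⟩
  · have : 1 ≤ 35 ^ k := Nat.one_le_pow _ _ (by norm_num)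
    nlinarith
  · omega
  · rw [hb1]; exact five_dvd k (2 * u + 1) w ⟨u, rfl⟩
  · rw [hb1]; exact seven_dvd k (2 * u + 1) w
  · -- 3^b ≤ 2^a
    have e : (3 : ℝ) ^ (12 * 35 ^ k * w) ≤ 2 * 2 ^ (6 * 35 ^ k * (2 * u + 1)) := by
      rw [← Real.log_le_log_iff (by positivity) (by positivity), Real.log_mul (by norm_num)
        (by positivity), Real.log_pow, Real.log_pow]
      rw [abs_lt] at hmn
      push_cast at hmn ⊢
      nlinarith [hmn.1, hmn.2]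
    have : (0 : ℝ) < 2 ^ (6 * 35 ^ k * (2 * u + 1)) := by positivity
    nlinarith
  · have e : (2 : ℝ) ^ (6 * 35 ^ k * (2 * u + 1)) ≤ 2 * 3 ^ (12 * 35 ^ k * w) := by
      rw [← Real.log_le_log_iff (by positivity) (by positivity), Real.log_mul (by norm_num)
        (by positivity), Real.log_pow, Real.log_pow]
      rw [abs_lt] at hmn
      push_cast at hmn ⊢
      nlinarith [hmn.1, hmn.2]
    nlinarith

/-- The inequality for one pair. -/
def Ineq (B : ℕ) (α β ε : ℝ) (x y : ℚ) : Prop :=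
  -(∑ p ∈ (x * y ^ B + 1).num.natAbs.primeFactors,
      Real.log ((padicNorm p (x * y ^ B + 1) : ℚ) : ℝ))
    ≤ α * (B : ℝ) * Real.log (max |((x.num : ℤ) : ℝ)| ((x.den : ℕ) : ℝ))
      + ε * (B : ℝ) * Real.log (max |((y.num : ℤ) : ℝ)| ((y.den : ℕ) : ℝ))
      + (B : ℝ) * (α * (B : ℝ) + ε) *
          (β + ∑ p ∈ (x * y ^ B + 1).num.natAbs.primeFactors, Real.log (p : ℝ))

lemma case_one (α β ε : ℝ) (hε0 : 0 < ε) (hε : ε < 1 / 2)
    (h : ∀ x y : ℚ, x ≠ 0 → y ≠ 0 → x * y ^ 1 ≠ 1 → x * y ^ 1 ≠ -1 → Ineq 1 α β ε x y) :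
    False := by
  have h2 : 0 < Real.log 2 := Real.log_pos (by norm_num)
  obtain ⟨n, hn⟩ := exists_nat_gt
    (((α + ε) * (β + Real.log 2)) / ((1 - ε) * Real.log 2))
  have hc : 0 < (1 - ε) * Real.log 2 := by
    apply mul_pos <;> linarith
  -- use the exponent n + 2
  set N := n + 2 with hN
  have hNn : ((α + ε) * (β + Real.log 2)) < N * ((1 - ε) * Real.log 2) := by
    rw [div_lt_iff₀ hc] at hn
    have : (n : ℝ) ≤ N := by rw [hN]; push_cast; linarith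
    nlinarith
  have hpow : (4 : ℤ) ≤ 2 ^ N := by
    have : (2 : ℤ) ^ N = 4 * 2 ^ n := by rw [hN, pow_add]; ring
    have h1 : (1 : ℤ) ≤ 2 ^ n := one_le_pow₀ (by norm_num)
    linarith
  have hpowq : (4 : ℚ) ≤ 2 ^ N := by exact_mod_cast hpow
  have hI := h 1 (2 ^ N - 1) one_ne_zero (by linarith) (by intro hh; linarith)
    (by intro hh; linarith)
  unfold Ineq at hI
  have hval : (1 : ℚ) * (2 ^ N - 1) ^ 1 + 1 = ((2 ^ N : ℤ) : ℚ) := by push_cast; ring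
  rw [lhs_eq _ (by rw [hval]; positivity)] at hI
  rw [hval] at hI
  have hnum : ((2 ^ N : ℤ) : ℚ).num.natAbs = 2 ^ N := by
    rw [Rat.num_intCast]; simp [Int.natAbs_pow]
  rw [hnum, Nat.primeFactors_prime_pow (by omega) Nat.prime_two] at hI
  have hhy : Real.log (max |(((2 ^ N - 1 : ℚ).num : ℤ) : ℝ)| (((2 ^ N - 1 : ℚ).den : ℕ) : ℝ))
      ≤ Real.log (2 ^ N) := by
    apply ht_le (2 ^ N - 1 : ℚ) (2 ^ N - 1) 1 (by omega) one_ne_zero (by push_cast; simp)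
    · have h4r : (4 : ℝ) ≤ 2 ^ N := by exact_mod_cast hpow
      push_cast
      rw [abs_of_nonneg (by linarith)]; linarith
    · have h4r : (4 : ℝ) ≤ 2 ^ N := by exact_mod_cast hpow
      simp; linarith
  generalize Real.log (max |(((2 ^ N - 1 : ℚ).num : ℤ) : ℝ)|
    (((2 ^ N - 1 : ℚ).den : ℕ) : ℝ)) = H at hI hhy
  simp only [Rat.num_one, Rat.den_one, Finset.sum_singleton] at hI
  rw [Real.log_pow] at hhy
  push_cast at hI
  rw [Real.log_pow] at hI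
  simp at hI
  nlinarith

lemma case_two (α β ε : ℝ) (hε0 : 0 < ε) (hε : ε < 1 / 2)
    (h : ∀ x y : ℚ, x ≠ 0 → y ≠ 0 → x * y ^ 2 ≠ 1 → x * y ^ 2 ≠ -1 → Ineq 2 α β ε x y) :
    False := by
  have h2 : 0 < Real.log 2 := Real.log_pos (by norm_num)
  have hc : 0 < (1 - 2 * ε) * Real.log 2 := by
    apply mul_pos <;> linarith
  obtain ⟨n, hn⟩ := exists_nat_gt
    ((2 * (2 * α + ε) * (β + Real.log 2)) / ((1 - 2 * ε) * Real.log 2))
  set N := n + 1 with hN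
  have hNn : 2 * (2 * α + ε) * (β + Real.log 2) < N * ((1 - 2 * ε) * Real.log 2) := by
    rw [div_lt_iff₀ hc] at hn
    have : (n : ℝ) ≤ N := by rw [hN]; push_cast; linarith
    nlinarith
  have hpow : (2 : ℤ) ≤ 2 ^ N := by
    have : (2 : ℤ) ^ N = 2 * 2 ^ n := by rw [hN, pow_add]; ring
    have h1 : (1 : ℤ) ≤ 2 ^ n := one_le_pow₀ (by norm_num)
    linarith
  have hpowq : (2 : ℚ) ≤ 2 ^ N := by exact_mod_cast hpow
  have hm0 : (2 : ℚ) ^ N - 1 ≠ 0 := by intro hh; linarith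
  have hp0 : (2 : ℚ) ^ N + 1 ≠ 0 := by intro hh; linarith
  have hval : (-1 : ℚ) * ((2 ^ N + 1) / (2 ^ N - 1)) ^ 2 + 1
      = ((-(4 * 2 ^ N) : ℤ) : ℚ) / (((2 ^ N - 1) ^ 2 : ℤ) : ℚ) := by
    push_cast; field_simp; ring
  have hodd : ¬ (2 : ℤ) ∣ 2 ^ N - 1 := by
    intro hd
    have : (2 : ℤ) ∣ 2 ^ N := dvd_pow_self 2 (by omega)
    have := dvd_sub this hd
    norm_num at this
  have hcop : IsCoprime (-(4 * 2 ^ N) : ℤ) ((2 ^ N - 1) ^ 2) := by
    have h1 : IsCoprime (2 : ℤ) (2 ^ N - 1) :=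
      (Int.prime_two.coprime_iff_not_dvd).mpr hodd
    have h3 : (-(4 * 2 ^ N) : ℤ) = -(2 ^ (N + 2)) := by ring
    rw [h3]
    exact (IsCoprime.pow h1).neg_left
  have hnum : ((-1 : ℚ) * ((2 ^ N + 1) / (2 ^ N - 1)) ^ 2 + 1).num.natAbs = 2 ^ (N + 2) := by
    rw [num_natAbs_of_coprime _ _ _ (by
      have : (2 : ℤ) ^ N - 1 ≠ 0 := by omega
      positivity) hcop hval]
    rw [Int.natAbs_neg, Int.natAbs_mul, Int.natAbs_pow]
    norm_num; ring
  have hne : (-1 : ℚ) * ((2 ^ N + 1) / (2 ^ N - 1)) ^ 2 + 1 ≠ 0 := by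
    intro hh
    rw [hh] at hnum
    simp at hnum
    have : 0 < 2 ^ (N + 2) := by positivity
    omega
  have hI := h (-1) ((2 ^ N + 1) / (2 ^ N - 1)) (by norm_num) (div_ne_zero hp0 hm0)
    (by
      intro hh
      have : (0 : ℚ) ≤ ((2 ^ N + 1) / (2 ^ N - 1)) ^ 2 := by positivity
      linarith)
    (by
      intro hh
      apply hne; rw [hh]; norm_num)
  unfold Ineq at hI
  rw [lhs_eq _ hne, hnum, Nat.primeFactors_prime_pow (by omega) Nat.prime_two] at hI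
  have hhy := ht_le ((2 ^ N + 1) / (2 ^ N - 1) : ℚ) (2 ^ N + 1) (2 ^ N - 1) (by positivity)
    (by omega) (by push_cast; rfl) (2 * 2 ^ N)
    (by
      have h4r : (2 : ℝ) ≤ 2 ^ N := by exact_mod_cast hpow
      push_cast
      rw [abs_of_nonneg (by linarith)]; linarith)
    (by
      have h4r : (2 : ℝ) ≤ 2 ^ N := by exact_mod_cast hpow
      push_cast
      rw [abs_of_nonneg (by linarith)]; linarith)
  rw [Real.log_mul (by norm_num) (by positivity), Real.log_pow] at hhy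
  have hx : Real.log (max |(((-1 : ℚ).num : ℤ) : ℝ)| (((-1 : ℚ).den : ℕ) : ℝ)) = 0 := by
    have : (-1 : ℚ).num = -1 := rfl
    have h' : (-1 : ℚ).den = 1 := rfl
    rw [this, h']; simp
  rw [hx] at hI
  simp only [Finset.sum_singleton] at hI
  push_cast at hI
  rw [Real.log_pow] at hI
  push_cast at hI
  nlinarith

lemma coprime_aux (a b : ℕ) (ha : 1 ≤ a) (hb : 1 ≤ b) :
    IsCoprime (-(16 * 2 ^ a * (3 ^ b) ^ 3) : ℤ)
      ((2 ^ a - 3 * 3 ^ b) * (2 ^ a + 3 ^ b) ^ 3) := by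
  have h2a : (2 : ℤ) ∣ 2 ^ a := dvd_pow_self 2 (by omega)
  have h3b : (3 : ℤ) ∣ 3 ^ b := dvd_pow_self 3 (by omega)
  have h2b : ¬ (2 : ℤ) ∣ 3 ^ b := by
    intro h; have := Int.prime_two.dvd_of_dvd_pow h; norm_num at this
  have h3a : ¬ (3 : ℤ) ∣ 2 ^ a := by
    intro h; have := Int.prime_three.dvd_of_dvd_pow h; norm_num at this
  have hA : IsCoprime (2 : ℤ) (2 ^ a - 3 * 3 ^ b) := by
    rw [Int.prime_two.coprime_iff_not_dvd]
    intro h
    have h1 : (2 : ℤ) ∣ 3 * 3 ^ b := by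
      have := dvd_sub h2a h; simpa using this
    rcases Int.prime_two.dvd_mul.mp h1 with h | h
    · norm_num at h
    · exact h2b h
  have hB : IsCoprime (2 : ℤ) (2 ^ a + 3 ^ b) := by
    rw [Int.prime_two.coprime_iff_not_dvd]
    intro h
    exact h2b ((dvd_add_right h2a).mp h)
  have hC : IsCoprime (3 : ℤ) (2 ^ a - 3 * 3 ^ b) := by
    rw [Int.prime_three.coprime_iff_not_dvd]
    intro h
    exact h3a ((dvd_sub_left (Dvd.intro _ rfl)).mp h)
  have hD : IsCoprime (3 : ℤ) (2 ^ a + 3 ^ b) := by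
    rw [Int.prime_three.coprime_iff_not_dvd]
    intro h
    exact h3a ((dvd_add_left h3b).mp h)
  have h2 : IsCoprime (2 : ℤ) ((2 ^ a - 3 * 3 ^ b) * (2 ^ a + 3 ^ b) ^ 3) :=
    IsCoprime.mul_right hA (hB.pow_right)
  have h3 : IsCoprime (3 : ℤ) ((2 ^ a - 3 * 3 ^ b) * (2 ^ a + 3 ^ b) ^ 3) :=
    IsCoprime.mul_right hC (hD.pow_right)
  apply IsCoprime.neg_left
  apply IsCoprime.mul_left
  · apply IsCoprime.mul_left
    · rw [show (16 : ℤ) = 2 ^ 4 by norm_num]; exact h2.pow_left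
    · exact h2.pow_left
  · exact (h3.pow_left).pow_left

lemma case_three (α β ε : ℝ) (hα : 1 ≤ α) (hε0 : 0 < ε) (hε : ε < 1 / 2)
    (hsum : α + ε ≤ 4 / 3)
    (h : ∀ x y : ℚ, x ≠ 0 → y ≠ 0 → x * y ^ 3 ≠ 1 → x * y ^ 3 ≠ -1 → Ineq 3 α β ε x y) :
    False := by
  have h2 : 0 < Real.log 2 := Real.log_pos (by norm_num)
  have h3 : 0 < Real.log 3 := Real.log_pos (by norm_num)
  have h5 : 0 < Real.log 5 := Real.log_pos (by norm_num)
  have h7 : 0 < Real.log 7 := Real.log_pos (by norm_num)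
  have h75 : Real.log 7 < 2 * Real.log 5 := by
    rw [← Real.log_rpow (by norm_num)]
    exact Real.log_lt_log (by norm_num) (by norm_num)
  set c : ℝ := 9 * α * Real.log 5 - 3 * ε * Real.log 7 with hc
  have hcpos : 0 < c := by rw [hc]; nlinarith
  set K : ℝ := 3 * α * Real.log 9 + 3 * ε * Real.log 7
    + 3 * (3 * α + ε) * (β + (Real.log 2 + Real.log 3)) with hK
  obtain ⟨n, hn⟩ := exists_nat_gt (K / c)
  rw [div_lt_iff₀ hcpos] at hn
  obtain ⟨a, b, ha, hb, ⟨A, hA⟩, ⟨B, hB⟩, hst, hts⟩ := exists_st (3 * n + 2)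
  have e5 : (5 : ℤ) ^ (3 * n + 2 + 1) = (5 ^ (n + 1)) ^ 3 := by rw [← pow_mul]; congr 1; ring
  have e7 : (7 : ℤ) ^ (3 * n + 2 + 1) = (7 ^ (n + 1)) ^ 3 := by rw [← pow_mul]; congr 1; ring
  rw [e5] at hA
  rw [e7] at hB
  have hcop := coprime_aux a b ha hb
  -- parity facts
  have h2a : (2 : ℤ) ∣ 2 ^ a := dvd_pow_self 2 (by omega)
  have h2b : ¬ (2 : ℤ) ∣ 3 ^ b := by
    intro h; have := Int.prime_two.dvd_of_dvd_pow h; norm_num at this
  have hs0 : (0 : ℤ) < 2 ^ a := by positivity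
  have ht0 : (0 : ℤ) < 3 ^ b := by positivity
  have hst0 : (2 : ℤ) ^ a - 3 ^ b ≠ 0 := by
    intro hh
    apply h2b
    have : (3 : ℤ) ^ b = 2 ^ a := by omega
    rw [this]; exact h2a
  have hst1 : (2 : ℤ) ^ a - 3 * 3 ^ b ≠ 0 := by
    intro hh
    have h1 : (2 : ℤ) ∣ 3 * 3 ^ b := by
      have : (3 : ℤ) * 3 ^ b = 2 ^ a := by omega
      rw [this]; exact h2a
    rcases Int.prime_two.dvd_mul.mp h1 with h | h
    · norm_num at h
    · exact h2b h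
  have hA0 : A ≠ 0 := by
    rintro rfl
    simp at hA
    omega
  have hB0 : B ≠ 0 := by
    rintro rfl
    simp at hB
    omega
  have hst2 : (2 : ℤ) ^ a + 3 ^ b ≠ 0 := by omega
  -- rational casts
  have hAq : (2 : ℚ) ^ a + 3 * 3 ^ b = (5 ^ (n + 1)) ^ 3 * (A : ℚ) := by exact_mod_cast hA
  have hBq : (2 : ℚ) ^ a - 3 * 3 ^ b = (7 ^ (n + 1)) ^ 3 * (B : ℚ) := by exact_mod_cast hB
  have hst0q : (2 : ℚ) ^ a - 3 ^ b ≠ 0 := by exact_mod_cast hst0
  have hst1q : (2 : ℚ) ^ a - 3 * 3 ^ b ≠ 0 := by exact_mod_cast hst1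
  have hst2q : (2 : ℚ) ^ a + 3 ^ b ≠ 0 := by exact_mod_cast hst2
  have hA0q : (A : ℚ) ≠ 0 := by exact_mod_cast hA0
  have hB0q : (B : ℚ) ≠ 0 := by exact_mod_cast hB0
  set x : ℚ := ((-A : ℤ) : ℚ) / ((B : ℤ) : ℚ) with hx
  set y : ℚ := ((5 ^ (n + 1) * (2 ^ a - 3 ^ b) : ℤ) : ℚ)
    / ((7 ^ (n + 1) * (2 ^ a + 3 ^ b) : ℤ) : ℚ) with hy
  have hxy : x * y ^ 3 = -((2 ^ a + 3 * 3 ^ b) * (2 ^ a - 3 ^ b) ^ 3) /
      ((2 ^ a - 3 * 3 ^ b) * (2 ^ a + 3 ^ b) ^ 3) := by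
    rw [hAq, hBq, hx, hy]
    push_cast
    field_simp
  have hval : x * y ^ 3 + 1 = ((-(16 * 2 ^ a * (3 ^ b) ^ 3) : ℤ) : ℚ)
      / (((2 ^ a - 3 * 3 ^ b) * (2 ^ a + 3 ^ b) ^ 3 : ℤ) : ℚ) := by
    rw [hxy]
    push_cast
    field_simp
    ring
  have hden0 : ((2 ^ a - 3 * 3 ^ b) * (2 ^ a + 3 ^ b) ^ 3 : ℤ) ≠ 0 :=
    mul_ne_zero hst1 (pow_ne_zero _ hst2)
  have hnum : (x * y ^ 3 + 1).num.natAbs = 2 ^ (a + 4) * 3 ^ (3 * b) := by
    rw [num_natAbs_of_coprime _ _ _ hden0 hcop hval]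
    rw [Int.natAbs_neg, Int.natAbs_mul, Int.natAbs_mul, Int.natAbs_pow, Int.natAbs_pow,
      Int.natAbs_pow]
    norm_num
    ring
  have hne : x * y ^ 3 + 1 ≠ 0 := by
    intro hh
    rw [hh] at hnum
    simp at hnum
  have hx0 : x ≠ 0 := by
    rw [hx]; apply div_ne_zero <;> push_cast
    · exact neg_ne_zero.mpr hA0q
    · exact hB0q
  have hy0 : y ≠ 0 := by
    rw [hy]; apply div_ne_zero <;> push_cast
    · exact mul_ne_zero (by positivity) hst0q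
    · exact mul_ne_zero (by positivity) hst2q
  have hI := h x y hx0 hy0 (by
      intro hh
      rw [hh] at hnum
      have h1 : ((1 : ℚ) + 1).num.natAbs = 2 := by norm_num
      rw [h1] at hnum
      have h3b : 1 ≤ 3 ^ (3 * b) := Nat.one_le_pow _ _ (by norm_num)
      have h2a' : 32 ≤ 2 ^ (a + 4) := by
        calc 32 = 2 ^ 5 := by norm_num
          _ ≤ 2 ^ (a + 4) := Nat.pow_le_pow_right (by norm_num) (by omega)
      nlinarith)
    (by intro hh; apply hne; rw [hh]; norm_num)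
  unfold Ineq at hI
  rw [lhs_eq _ hne, hnum] at hI
  have hpf : (2 ^ (a + 4) * 3 ^ (3 * b)).primeFactors = {2, 3} := by
    rw [Nat.primeFactors_mul (by positivity) (by positivity),
      Nat.primeFactors_prime_pow (by omega) Nat.prime_two,
      Nat.primeFactors_prime_pow (by omega) Nat.prime_three]
    rfl
  rw [hpf, Finset.sum_pair (by norm_num)] at hI
  -- real estimates
  obtain ⟨t, ht⟩ : ∃ t : ℝ, t = 3 ^ b := ⟨_, rfl⟩
  obtain ⟨s, hs⟩ : ∃ s : ℝ, s = 2 ^ a := ⟨_, rfl⟩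
  rw [← ht, ← hs] at hst hts
  have htpos : 1 ≤ t := by rw [ht]; exact one_le_pow₀ (by norm_num)
  have hspos : 0 < s := by rw [hs]; positivity
  have hL0 : 0 ≤ Real.log t := Real.log_nonneg htpos
  have hF1 : (1 : ℝ) ≤ 5 ^ (n + 1) := one_le_pow₀ (by norm_num)
  have hG1 : (1 : ℝ) ≤ 7 ^ (n + 1) := one_le_pow₀ (by norm_num)
  have hFG : (5 : ℝ) ^ (n + 1) ≤ 7 ^ (n + 1) :=
    pow_le_pow_left₀ (by norm_num) (by norm_num) _
  have hAr : s + 3 * t = (5 ^ (n + 1)) ^ 3 * (A : ℝ) := by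
    rw [hs, ht]; exact_mod_cast hA
  have hBr : s - 3 * t = (7 ^ (n + 1)) ^ 3 * (B : ℝ) := by
    rw [hs, ht]; exact_mod_cast hB
  have hhx := ht_le x (-A) B (neg_ne_zero.mpr hA0) hB0 hx (9 * t / (5 ^ (n + 1)) ^ 3)
    (by
      push_cast
      rw [abs_neg, le_div_iff₀ (by positivity)]
      have : |(A : ℝ)| * (5 ^ (n + 1)) ^ 3 = |s + 3 * t| := by
        rw [hAr, abs_mul, abs_of_nonneg (by positivity : (0 : ℝ) ≤ (5 ^ (n + 1)) ^ 3)]; ring
      rw [this, abs_of_nonneg (by positivity)]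
      linarith)
    (by
      rw [le_div_iff₀ (by positivity)]
      have h1 : |(B : ℝ)| * (7 ^ (n + 1)) ^ 3 = |s - 3 * t| := by
        rw [hBr, abs_mul, abs_of_nonneg (by positivity : (0 : ℝ) ≤ (7 ^ (n + 1)) ^ 3)]; ring
      have h2 : |s - 3 * t| ≤ 9 * t := by
        rw [abs_le]; constructor <;> linarith
      have h3 : ((5 : ℝ) ^ (n + 1)) ^ 3 ≤ (7 ^ (n + 1)) ^ 3 :=
        pow_le_pow_left₀ (by positivity) hFG 3
      calc |(B : ℝ)| * (5 ^ (n + 1)) ^ 3 ≤ |(B : ℝ)| * (7 ^ (n + 1)) ^ 3 := by gcongr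
        _ = |s - 3 * t| := h1
        _ ≤ 9 * t := h2)
  have hhy := ht_le y (5 ^ (n + 1) * (2 ^ a - 3 ^ b)) (7 ^ (n + 1) * (2 ^ a + 3 ^ b))
    (mul_ne_zero (by positivity) hst0) (mul_ne_zero (by positivity) hst2) hy
    (7 ^ (n + 1) * (7 * t))
    (by
      push_cast
      rw [abs_mul, abs_of_nonneg (by positivity : (0 : ℝ) ≤ 5 ^ (n + 1)), ← hs, ← ht]
      have h2 : |s - t| ≤ 7 * t := by
        rw [abs_le]; constructor <;> linarith
      gcongr)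
    (by
      push_cast
      rw [abs_mul, abs_of_nonneg (by positivity : (0 : ℝ) ≤ 7 ^ (n + 1)), ← hs, ← ht]
      have h2 : |s + t| ≤ 7 * t := by
        rw [abs_le]; constructor <;> linarith
      gcongr)
  rw [Real.log_div (by positivity) (by positivity), Real.log_mul (by norm_num) (by positivity),
    Real.log_pow, Real.log_pow] at hhx
  rw [Real.log_mul (by positivity) (by positivity), Real.log_mul (by norm_num) (by positivity),
    Real.log_pow] at hhy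
  have hlhs : 4 * Real.log t ≤ Real.log ((2 ^ (a + 4) * 3 ^ (3 * b) : ℕ) : ℝ) := by
    have e : ((2 ^ (a + 4) * 3 ^ (3 * b) : ℕ) : ℝ) = 16 * s * t ^ 3 := by
      push_cast; rw [hs, ht]; ring
    rw [e]
    have e2 : 4 * Real.log t = Real.log (t ^ 4) := by rw [Real.log_pow]; norm_num
    rw [e2]
    apply Real.log_le_log (by positivity)
    have : 0 ≤ t ^ 3 := by positivity
    nlinarith
  push_cast at hI hhx hhy hlhs
  have hα0 : 0 < α := by linarith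
  have hβ := hI
  have key1 : α * 3 * Real.log (max |(x.num : ℝ)| (x.den : ℝ)) ≤
      α * 3 * (Real.log 9 + Real.log t - 3 * ((n + 1) * Real.log 5)) := by gcongr
  have key2 : ε * 3 * Real.log (max |(y.num : ℝ)| (y.den : ℝ)) ≤
      ε * 3 * ((n + 1) * Real.log 7 + (Real.log 7 + Real.log t)) := by gcongr
  have key3 : (3 * (α + ε) - 4) * Real.log t ≤ 0 := by
    apply mul_nonpos_of_nonpos_of_nonneg
    · linarith
    · exact hL0
  have hfin : (n + 1) * c ≤ K := by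
    rw [hc, hK]
    linarith
  linarith

theorem result : ∀ B : ℕ, 0 < B → ∀ α β ε : ℝ, 1 ≤ α → 0 ≤ β → 0 < ε → ε < 1 / 2 →
    (∀ x y : ℚ, x ≠ 0 → y ≠ 0 → x * y ^ B ≠ 1 → x * y ^ B ≠ -1 →
        -(∑ p ∈ (x * y ^ B + 1).num.natAbs.primeFactors,
            Real.log ((padicNorm p (x * y ^ B + 1) : ℚ) : ℝ))
          ≤ α * (B : ℝ) * Real.log (max |((x.num : ℤ) : ℝ)| ((x.den : ℕ) : ℝ))
            + ε * (B : ℝ) * Real.log (max |((y.num : ℤ) : ℝ)| ((y.den : ℕ) : ℝ))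
            + (B : ℝ) * (α * (B : ℝ) + ε) *
                (β + ∑ p ∈ (x * y ^ B + 1).num.natAbs.primeFactors, Real.log (p : ℝ))) →
    4 ≤ B ∨ (B = 3 ∧ 4 / 3 < α + ε) := by
  intro B hB α β ε hα hβ hε0 hε h
  by_contra hcon
  push Not at hcon
  obtain ⟨h4, h3⟩ := hcon
  have hlt : B < 4 := h4
  interval_cases B
  · exact case_one α β ε hε0 hε h
  · exact case_two α β ε hε0 hε h
  · exact case_three α β ε hα hε0 hε (h3 rfl) h

end Pool.Agent.H10.Kept.SharpParams
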